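import Pool.Agent.H792R2.WMPMain

/-!
`MP_479f73_an`: if `(E, F)` has the weak maximizing property for every Banach space `F`
(the single space `F = ℓ_∞` is enough) then `E` is finite dimensional.
-/

open Filter Topology
open scoped ENNReal

namespace Pool.Agent.Results.MP_479f73_an.WMPFiniteDim

open Pool.Agent.H792R2.WM

universe u v

variable {𝕜 : Type} [RCLike 𝕜] {E : Type u} [NormedAddCommGroup E] [NormedSpace 𝕜 E]

theorem wmp_of_finiteDimensional [FiniteDimensional 𝕜 E] {F : Type v} [NormedAddCommGroup F]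
    [NormedSpace 𝕜 F] : WMP 𝕜 E F := by
  rintro T ⟨x, hx, hx2, -⟩
  have : ProperSpace E := FiniteDimensional.proper_rclike 𝕜 E
  obtain ⟨z, hz, φ, hφ, hlim⟩ := (isCompact_sphere (0 : E) 1).tendsto_subseq
    (x := x) (fun n => by simpa using hx n)
  refine ⟨z, by simpa using hz, ?_⟩
  have h1 : Tendsto (fun n => ‖T (x (φ n))‖) atTop (𝓝 ‖T z‖) :=
    ((T.continuous.tendsto z).comp hlim).norm
  exact tendsto_nhds_unique h1 (hx2.comp hφ.tendsto_atTop)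

theorem wmp_of_equiv {F : Type*} [NormedAddCommGroup F] [NormedSpace 𝕜 F]
    {G : Type*} [NormedAddCommGroup G] [NormedSpace 𝕜 G] (e : F ≃ₗᵢ[𝕜] G)
    (h : WMP 𝕜 E G) : WMP 𝕜 E F := by
  rintro T ⟨x, hx, hx2, hx3⟩
  set S : E →L[𝕜] G := (e : F →L[𝕜] G).comp T with hS
  have hSn : ∀ z, ‖S z‖ = ‖T z‖ := fun z => e.norm_map (T z)
  have hST : ‖S‖ = ‖T‖ := by
    refine le_antisymm (S.opNorm_le_bound (norm_nonneg _) fun z => ?_)
      (T.opNorm_le_bound (norm_nonneg _) fun z => ?_)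
    · rw [hSn]; exact T.le_opNorm z
    · rw [← hSn]; exact S.le_opNorm z
  obtain ⟨z, hz, hz2⟩ := h S ⟨x, hx, by simpa only [hSn, hST] using hx2, hx3⟩
  exact ⟨z, hz, by rw [← hSn, hz2, hST]⟩

theorem result :
    (∀ (𝕜 : Type) [RCLike 𝕜] (E : Type u) [NormedAddCommGroup E] [NormedSpace 𝕜 E],
      WMP 𝕜 E (lp (fun _ : ℕ => 𝕜) ∞) → FiniteDimensional 𝕜 E) ∧
    (∀ (𝕜 : Type) [RCLike 𝕜] (E : Type u) [NormedAddCommGroup E] [NormedSpace 𝕜 E]
      [CompleteSpace E],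
      (∀ (F : Type v) [NormedAddCommGroup F] [NormedSpace 𝕜 F] [CompleteSpace F], WMP 𝕜 E F) ↔
        FiniteDimensional 𝕜 E) := by
  refine ⟨fun 𝕜 _ E _ _ hW => main hW, fun 𝕜 _ E _ _ _ => ⟨fun h => ?_, fun h => ?_⟩⟩
  · refine main (𝕜 := 𝕜) (E := E) ?_
    exact wmp_of_equiv (LinearIsometryEquiv.ulift 𝕜 (lp (fun _ : ℕ => 𝕜) ∞)).symm
      (h (ULift.{v} (lp (fun _ : ℕ => 𝕜) ∞)))
  · intro F _ _ _
    exact wmp_of_finiteDimensional

end Pool.Agent.Results.MP_479f73_an.WMPFiniteDim
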